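import Pool.Agent.H43.TD.Int

/-!
# Gap theorem, route 2: the local polynomials at the nodes, integrality and size

`TI B N I a = ∏_{n ≤ B} ∏_{i<na} (4 n X + 4 i + 4 - 2 [n ∈ I]) ∏_{i<n(N-a)} (n X - i - 1)`.
-/

set_option autoImplicit false

namespace Pool.Agent.H43.TD

open Finset Polynomial

/-- the local polynomial of the layers `I` at the node `a` -/
noncomputable def TI (B N : ℕ) (I : Finset ℕ) (a : ℕ) : ℤ[X] :=
  ∏ n ∈ Icc 1 B, ((∏ i ∈ range (n * a), (C (4 * (n : ℤ)) * X + C (4 * (i : ℤ) + 4 - if n ∈ I then 2 else 0)))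
    * ∏ i ∈ range (n * (N - a)), (C (n : ℤ) * X - C ((i : ℤ) + 1)))

/-- `i!` times the binomial coefficient `binom (X + a, i)` -/
noncomputable def bi (a i : ℕ) : ℤ[X] := ∏ j ∈ range i, (X + C ((a : ℤ) - (j : ℤ)))

/-- the exponent of `Y!` -/
def ex (B Z : ℕ) : ℕ := Z * ∑ n ∈ Icc 1 B, n

theorem bi_comp (a i L : ℕ) : (bi a i).comp (C (L : ℤ) * X) = ff ((L : ℤ[X]) * X + (a : ℤ[X])) i := by
  unfold bi ff
  rw [Polynomial.prod_comp]
  refine prod_congr rfl fun j _ => ?_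
  simp only [add_comp, X_comp, C_comp]
  simp only [C_sub, map_natCast]
  ring

theorem dvd_lcmUpto {Y j : ℕ} (h1 : 1 ≤ j) (h2 : j ≤ Y) : j ∣ Nat.lcmUpto Y := by
  unfold Nat.lcmUpto
  exact Finset.dvd_lcm (f := id) (mem_Icc.2 ⟨h1, h2⟩)

theorem Dv_lcm (Y : ℕ) (x : ℤ[X]) : Dv Y (((Nat.lcmUpto Y : ℕ) : ℤ[X]) * x) :=
  Dv_mul (fun _ h1 h2 => dvd_lcmUpto h1 h2) x

/-- one layer at one node -/
theorem layer_dvd {Y Z n a : ℕ} (hY : 0 < Y) (ha : a ≤ Z * Y) (δ : Prop) [Decidable δ] :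
    (((Y.factorial ^ (n * Z) : ℕ)) : ℤ[X]) ∣ ((Nat.lcmUpto Y : ℕ) : ℤ[X]) *
      (((∏ i ∈ range (n * a), (C (4 * (n : ℤ)) * X + C (4 * (i : ℤ) + 4 - if δ then 2 else 0)))
      * ∏ i ∈ range (n * (Z * Y - a)), (C (n : ℤ) * X - C ((i : ℤ) + 1))).comp
        (C ((Nat.lcmUpto Y : ℕ) : ℤ) * X)) := by
  set L := Nat.lcmUpto Y with hL
  set y : ℤ[X] := (L : ℤ[X]) * ((n : ℤ[X]) * X) with hy
  have hD : Dv Y y := Dv_lcm Y _
  have h2 : (∏ i ∈ range (n * (Z * Y - a)), (C (n : ℤ) * X - C ((i : ℤ) + 1))).comp (C (L : ℤ) * X)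
      = ff (y - 1) (n * (Z * Y - a)) := by
    rw [← prod_sub_eq, Polynomial.prod_comp]
    refine prod_congr rfl fun i _ => ?_
    simp only [sub_comp, mul_comp, X_comp, C_comp]
    simp only [map_natCast, map_add, map_one, hy]
    ring
  have hD2 : Dv Y (y - 1) := hD.sub_one
  have hd2 := ff_block hY (n * (Z * Y - a)) hD2
  have h1 : ((bl Y (n * a) : ℕ) : ℤ[X]) ∣
      (∏ i ∈ range (n * a), (C (4 * (n : ℤ)) * X + C (4 * (i : ℤ) + 4 - if δ then 2 else 0))).comp
        (C (L : ℤ) * X) := by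
    rw [Polynomial.prod_comp]
    have hDa : Dv Y (y + ((n * a : ℕ) : ℤ[X])) := by
      have := hD.add_int ((n * a : ℕ) : ℤ)
      rwa [Int.cast_natCast] at this
    by_cases hδ : δ
    · have e : ∏ i ∈ range (n * a), (C (4 * (n : ℤ)) * X + C (4 * (i : ℤ) + 4 - if δ then 2 else 0)).comp
          (C (L : ℤ) * X) = hf (y + ((n * a : ℕ) : ℤ[X])) (n * a) := by
        rw [← prod_half_eq]
        refine prod_congr rfl fun i _ => ?_
        rw [if_pos hδ]
        simp only [add_comp, mul_comp, X_comp, C_comp]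
        simp only [map_natCast, map_add, map_sub, map_mul, map_ofNat, hy]
        ring
      rw [e]
      exact hf_block hY _ hDa
    · have e : ∏ i ∈ range (n * a), (C (4 * (n : ℤ)) * X + C (4 * (i : ℤ) + 4 - if δ then 2 else 0)).comp
          (C (L : ℤ) * X) = 4 ^ (n * a) * ff (y + ((n * a : ℕ) : ℤ[X])) (n * a) := by
        have e0 : (4 : ℤ[X]) ^ (n * a) = ∏ _i ∈ range (n * a), (4 : ℤ[X]) := by
          rw [prod_const, card_range]
        rw [← prod_add_eq, e0, ← prod_mul_distrib]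
        refine prod_congr rfl fun i _ => ?_
        rw [if_neg hδ]
        simp only [add_comp, mul_comp, X_comp, C_comp]
        simp only [map_natCast, map_add, map_mul, map_ofNat, hy, sub_zero]
        ring
      rw [e]
      exact (ff_block hY _ hDa).mul_left _
  obtain ⟨c, ⟨c', hc⟩, hc2⟩ := bl_mul hY (n * Z) (n * a) (n * (Z * Y - a)) (by
    rw [← mul_add, Nat.add_sub_cancel' ha, mul_assoc])
  rw [mul_comp, h2]
  obtain ⟨P, hP⟩ := h1
  obtain ⟨Q, hQ⟩ := hd2
  refine ⟨(c' : ℤ[X]) * (P * Q), ?_⟩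
  rw [hP, hQ, ← hc2, ← hL] at *
  have hc' : ((L : ℕ) : ℤ[X]) = (c : ℤ[X]) * (c' : ℤ[X]) := by rw [hc]; push_cast; ring
  rw [hc']
  push_cast
  ring

theorem prod_dvd_pow {B : ℕ} (f : ℕ → ℤ[X]) (g : ℕ → ℤ[X]) (l : ℤ[X])
    (h : ∀ n ∈ Icc 1 B, g n ∣ l * f n) : ∏ n ∈ Icc 1 B, g n ∣ l ^ B * ∏ n ∈ Icc 1 B, f n := by
  have e : l ^ B * ∏ n ∈ Icc 1 B, f n = ∏ n ∈ Icc 1 B, (l * f n) := by
    rw [prod_mul_distrib, prod_const, Nat.card_Icc]; simp
  rw [e]
  exact prod_dvd_prod_of_dvd _ _ h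

/-- **Integrality.** -/
theorem int_main {Y Z B a i : ℕ} (hY : 0 < Y) (I : Finset ℕ) (ha : a ≤ Z * Y) (hi : i ≤ Y) (s : ℕ) :
    ((Y.factorial ^ ex B Z * i.factorial : ℕ) : ℤ) ∣
      ((Nat.lcmUpto Y : ℕ) : ℤ) ^ (s + B) * (bi a i * TI B (Z * Y) I a).coeff s := by
  set L := Nat.lcmUpto Y with hL
  have h1 : ((i.factorial : ℕ) : ℤ[X]) ∣ (bi a i).comp (C (L : ℤ) * X) := by
    rw [bi_comp]
    have := (Dv_lcm Y X).add_int (a : ℤ)
    rw [Int.cast_natCast] at this
    exact this i hi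
  have h2 : ((Y.factorial ^ ex B Z : ℕ) : ℤ[X]) ∣
      ((L : ℕ) : ℤ[X]) ^ B * (TI B (Z * Y) I a).comp (C (L : ℤ) * X) := by
    unfold TI
    rw [Polynomial.prod_comp]
    have e : ((Y.factorial ^ ex B Z : ℕ) : ℤ[X]) = ∏ n ∈ Icc 1 B, ((Y.factorial ^ (n * Z) : ℕ) : ℤ[X]) := by
      rw [← Nat.cast_prod, prod_pow_eq_pow_sum, ← sum_mul, mul_comm]
      rfl
    rw [e]
    exact prod_dvd_pow _ _ _ fun n _ => layer_dvd hY ha (n ∈ I)
  have h3 : ((Y.factorial ^ ex B Z * i.factorial : ℕ) : ℤ[X]) ∣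
      ((L : ℕ) : ℤ[X]) ^ B * (bi a i * TI B (Z * Y) I a).comp (C (L : ℤ) * X) := by
    rw [mul_comp, Nat.cast_mul]
    have := mul_dvd_mul h2 h1
    refine this.trans (dvd_of_eq ?_)
    ring
  have e : ((Y.factorial ^ ex B Z * i.factorial : ℕ) : ℤ[X])
      = C ((Y.factorial ^ ex B Z * i.factorial : ℕ) : ℤ) := by
    rw [map_natCast]
  rw [e, Polynomial.C_dvd_iff_dvd_coeff] at h3
  have h4 := h3 s
  have e2 : (((L : ℕ) : ℤ[X]) ^ B * (bi a i * TI B (Z * Y) I a).comp (C (L : ℤ) * X)).coeff s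
      = (L : ℤ) ^ (s + B) * (bi a i * TI B (Z * Y) I a).coeff s := by
    rw [show ((L : ℕ) : ℤ[X]) ^ B = C ((L : ℤ) ^ B) by rw [C_pow, map_natCast], coeff_C_mul,
      comp_C_mul_X_coeff, pow_add]
    ring
  rw [e2] at h4
  exact h4

/-! ### Size -/

/-- the sum of the absolute values of the first coefficients is at most `M` -/
def Bd (P : ℤ[X]) (M : ℕ) : Prop := ∀ n : ℕ, ∑ i ∈ range n, |P.coeff i| ≤ (M : ℤ)

theorem Bd.coeff {P : ℤ[X]} {M : ℕ} (h : Bd P M) (i : ℕ) : |P.coeff i| ≤ M :=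
  (single_le_sum (f := fun i => |P.coeff i|) (fun _ _ => abs_nonneg _)
    (mem_range.2 (Nat.lt_succ_self i))).trans (h (i + 1))

theorem Bd.mul {P Q : ℤ[X]} {M M' : ℕ} (h : Bd P M) (h' : Bd Q M') : Bd (P * Q) (M * M') := by
  intro n
  have h1 : ∑ i ∈ range n, |(P * Q).coeff i|
      ≤ ∑ i ∈ range n, ∑ p ∈ antidiagonal i, |P.coeff p.1| * |Q.coeff p.2| := by
    refine sum_le_sum fun i _ => ?_
    rw [Polynomial.coeff_mul]
    refine (abs_sum_le_sum_abs _ _).trans (le_of_eq ?_)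
    exact sum_congr rfl fun p _ => abs_mul _ _
  have h2 : ∑ i ∈ range n, ∑ p ∈ antidiagonal i, |P.coeff p.1| * |Q.coeff p.2|
      ≤ ∑ p ∈ range n ×ˢ range n, |P.coeff p.1| * |Q.coeff p.2| := by
    rw [← sum_biUnion]
    · refine sum_le_sum_of_subset_of_nonneg ?_ fun _ _ _ => by positivity
      intro p hp
      obtain ⟨i, hi, hp⟩ := mem_biUnion.1 hp
      have h3 := mem_range.1 hi
      have h4 := mem_antidiagonal.1 hp
      exact mem_product.2 ⟨mem_range.2 (by omega), mem_range.2 (by omega)⟩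
    · intro i _ j _ hij
      refine disjoint_left.2 fun p hp hp' => hij ?_
      rw [← mem_antidiagonal.1 hp, ← mem_antidiagonal.1 hp']
  refine (h1.trans h2).trans ?_
  have h3 := Finset.sum_mul_sum (range n) (range n) (fun i => |P.coeff i|) (fun j => |Q.coeff j|)
  rw [Finset.sum_product]
  change ∑ x ∈ range n, ∑ y ∈ range n, |P.coeff x| * |Q.coeff y| ≤ _
  rw [← h3]
  push_cast
  exact mul_le_mul (h n) (h' n) (sum_nonneg fun _ _ => abs_nonneg _) (by positivity)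

theorem Bd.one : Bd 1 1 := by
  intro n
  rw [← Finset.sum_filter_add_sum_filter_not (range n) (fun i => i = 0)]
  have h1 : ∑ i ∈ (range n).filter (fun i => ¬ i = 0), |(1 : ℤ[X]).coeff i| = 0 := by
    refine sum_eq_zero fun i hi => ?_
    rw [Polynomial.coeff_one, if_neg (mem_filter.1 hi).2, abs_zero]
  have h2 : ∑ i ∈ (range n).filter (fun i => i = 0), |(1 : ℤ[X]).coeff i| ≤ 1 := by
    refine (sum_le_sum (g := fun _ => (1 : ℤ)) fun i hi => ?_).trans ?_
    · rw [Polynomial.coeff_one, if_pos (mem_filter.1 hi).2, abs_one]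
    · rw [sum_const, nsmul_eq_mul, mul_one]
      have : ((range n).filter (fun i => i = 0)).card ≤ ({0} : Finset ℕ).card :=
        card_le_card fun i hi => mem_singleton.2 (mem_filter.1 hi).2
      rw [card_singleton] at this
      exact_mod_cast this
  rw [h1, add_zero]
  exact_mod_cast h2

theorem Bd.linear (a b : ℤ) (M : ℕ) (h : |a| + |b| ≤ M) : Bd (C a * X + C b) M := by
  intro n
  have h0 : (0 : ℤ) ≤ M := by positivity
  have hc : ∀ i, |(C a * X + C b).coeff i| = if i = 0 then |b| else if i = 1 then |a| else 0 := by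
    intro i
    simp only [coeff_add, coeff_C_mul, coeff_X, coeff_C]
    rcases i with _ | _ | i
    · simp
    · simp
    · simp
  rcases n with _ | _ | n
  · simp
  · simp only [hc, zero_add, range_one, sum_singleton, if_true]
    have := abs_nonneg a
    linarith
  · rw [show n + 1 + 1 = 2 + n by ring, sum_range_add]
    have h1 : ∑ x ∈ range n, |(C a * X + C b).coeff (2 + x)| = 0 := by
      refine sum_eq_zero fun x _ => ?_
      rw [hc, if_neg (by omega), if_neg (by omega)]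
    rw [h1, add_zero, sum_range_succ, sum_range_one, hc, hc]
    simp only [if_true]
    rw [if_neg one_ne_zero, add_comm]
    exact h

theorem Bd.prod {ι : Type*} (s : Finset ι) (P : ι → ℤ[X]) (M : ι → ℕ) (h : ∀ i ∈ s, Bd (P i) (M i)) :
    Bd (∏ i ∈ s, P i) (∏ i ∈ s, M i) := by
  classical
  induction s using Finset.induction_on with
  | empty => simpa using Bd.one
  | insert i s hi ih =>
    rw [prod_insert hi, prod_insert hi]
    exact (h i (mem_insert_self _ _)).mul (ih fun j hj => h j (mem_insert_of_mem hj))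

theorem prod_range_add_le (c m : ℕ) : ∏ i ∈ range m, (c + i + 1) ≤ m.factorial * 2 ^ (m + c) := by
  have h1 : ∏ i ∈ range m, (c + i + 1) = m.factorial * (m + c).choose m := by
    have h2 : (c.factorial) * ∏ i ∈ range m, (c + i + 1) = (m + c).factorial := by
      induction m with
      | zero => simp
      | succ m ih =>
        rw [prod_range_succ, ← mul_assoc, ih, show m + 1 + c = (m + c) + 1 by ring, Nat.factorial_succ]
        ring
    have h3 := Nat.add_choose_mul_factorial_mul_factorial c m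
    rw [Nat.add_comm c m] at h3
    have h4 : c.factorial ≠ 0 := Nat.factorial_ne_zero _
    refine Nat.eq_of_mul_eq_mul_left (Nat.pos_of_ne_zero h4) ?_
    rw [h2, ← h3]
    ring
  rw [h1]
  exact Nat.mul_le_mul_left _ (Nat.choose_le_two_pow _ _)

theorem factorial_mul_le (m Y : ℕ) : (m * Y).factorial ≤ m ^ (m * Y) * Y.factorial ^ m := by
  induction m with
  | zero => simp
  | succ m ih =>
    have h1 : ((m + 1) * Y).factorial = ((m * Y) + Y).choose (m * Y) * (m * Y).factorial * Y.factorial := by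
      rw [Nat.choose_symm_add, Nat.add_choose_mul_factorial_mul_factorial]
      congr 1; ring
    have h2 : ((m * Y) + Y).choose (m * Y) * m ^ (m * Y) ≤ (m + 1) ^ ((m + 1) * Y) := by
      rw [show (m + 1) * Y = m * Y + Y by ring, add_pow]
      refine le_trans (le_of_eq ?_) (single_le_sum (f := fun k => m ^ k * 1 ^ (m * Y + Y - k) * ((m * Y + Y).choose k))
        (fun _ _ => Nat.zero_le _) (mem_range.2 (by omega : m * Y < m * Y + Y + 1)))
      simp [mul_comm]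
    rw [h1, pow_succ]
    calc _ ≤ ((m * Y) + Y).choose (m * Y) * (m ^ (m * Y) * Y.factorial ^ m) * Y.factorial := by gcongr
      _ = (((m * Y) + Y).choose (m * Y) * m ^ (m * Y)) * (Y.factorial ^ m * Y.factorial) := by ring
      _ ≤ _ := by gcongr

/-- one layer -/
theorem layer_bd (n a N : ℕ) (ha : a ≤ N) (δ : Prop) [Decidable δ] :
    Bd ((∏ i ∈ range (n * a), (C (4 * (n : ℤ)) * X + C (4 * (i : ℤ) + 4 - if δ then 2 else 0)))
      * ∏ i ∈ range (n * (N - a)), (C (n : ℤ) * X - C ((i : ℤ) + 1)))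
      (8 ^ (n * N) * 4 ^ n * (n * N).factorial) := by
  have h1 : Bd (∏ i ∈ range (n * a), (C (4 * (n : ℤ)) * X + C (4 * (i : ℤ) + 4 - if δ then 2 else 0)))
      (∏ i ∈ range (n * a), (4 * (n + i + 1))) := by
    refine Bd.prod _ _ _ fun i _ => Bd.linear _ _ _ ?_
    have : (0 : ℤ) ≤ 4 * (i : ℤ) + 4 - (if δ then 2 else 0) ∧
        4 * (i : ℤ) + 4 - (if δ then 2 else 0) ≤ 4 * (i : ℤ) + 4 := by
      split_ifs <;> constructor <;> linarith [Int.natCast_nonneg i]
    rw [abs_of_nonneg (by positivity), abs_of_nonneg this.1]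
    push_cast
    linarith [this.2]
  have h2 : Bd (∏ i ∈ range (n * (N - a)), (C (n : ℤ) * X - C ((i : ℤ) + 1)))
      (∏ i ∈ range (n * (N - a)), (n + i + 1)) := by
    refine Bd.prod _ _ _ fun i _ => ?_
    rw [sub_eq_add_neg, ← C_neg]
    refine Bd.linear _ _ _ ?_
    rw [abs_neg, abs_of_nonneg (by positivity), abs_of_nonneg (by positivity)]
    push_cast
    linarith
  have h3 := h1.mul h2
  intro k
  refine (h3 k).trans ?_
  have h4 : (∏ i ∈ range (n * a), (4 * (n + i + 1))) * ∏ i ∈ range (n * (N - a)), (n + i + 1)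
      ≤ 8 ^ (n * N) * 4 ^ n * (n * N).factorial := by
    have e1 : ∏ i ∈ range (n * a), (4 * (n + i + 1)) = 4 ^ (n * a) * ∏ i ∈ range (n * a), (n + i + 1) := by
      rw [prod_mul_distrib, prod_const, card_range]
    have e2 := prod_range_add_le n (n * a)
    have e3 := prod_range_add_le n (n * (N - a))
    have e4 : (n * a).factorial * (n * (N - a)).factorial ≤ (n * N).factorial := by
      have : n * N = n * a + n * (N - a) := by rw [← mul_add, Nat.add_sub_cancel' ha]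
      rw [this]
      exact Nat.le_of_dvd (Nat.factorial_pos _) (Nat.factorial_mul_factorial_dvd_factorial_add _ _)
    rw [e1]
    calc _ ≤ 4 ^ (n * a) * ((n * a).factorial * 2 ^ (n * a + n)) *
          ((n * (N - a)).factorial * 2 ^ (n * (N - a) + n)) := by gcongr
      _ = 4 ^ (n * a) * (2 ^ (n * a + n) * 2 ^ (n * (N - a) + n)) *
          ((n * a).factorial * (n * (N - a)).factorial) := by ring
      _ ≤ 4 ^ (n * N) * (2 ^ (n * N) * 4 ^ n) * (n * N).factorial := by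
        have e5 : 2 ^ (n * a + n) * 2 ^ (n * (N - a) + n) = 2 ^ (n * N) * 4 ^ n := by
          rw [← pow_add, show n * a + n + (n * (N - a) + n) = n * N + 2 * n by
            rw [show n * N = n * a + n * (N - a) by rw [← mul_add, Nat.add_sub_cancel' ha]]; ring,
            pow_add, pow_mul 2 2 n]
          norm_num
        rw [e5]
        gcongr
        norm_num
      _ = 8 ^ (n * N) * 4 ^ n * (n * N).factorial := by
        rw [show (8 : ℕ) = 4 * 2 by norm_num, mul_pow]; ring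
  exact_mod_cast h4

theorem bi_bd (a i : ℕ) : Bd (bi a i) (i.factorial * 2 ^ (i + a)) := by
  have h1 : Bd (bi a i) (∏ j ∈ range i, (a + j + 1)) := by
    unfold bi
    refine Bd.prod _ _ _ fun j _ => ?_
    rw [show (X + C ((a : ℤ) - (j : ℤ)) : ℤ[X]) = C 1 * X + C ((a : ℤ) - (j : ℤ)) by simp]
    refine Bd.linear _ _ _ ?_
    have h2 : |(a : ℤ) - (j : ℤ)| ≤ a + j := by
      rw [abs_le]; constructor <;> linarith [Int.natCast_nonneg a, Int.natCast_nonneg j]
    rw [abs_one]; push_cast; linarith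
  intro k
  refine (h1 k).trans ?_
  exact_mod_cast prod_range_add_le a i

/-- **Size.** -/
theorem size_main {Y Z B a i : ℕ} (I : Finset ℕ) (ha : a ≤ Z * Y) (s : ℕ) :
    |(bi a i * TI B (Z * Y) I a).coeff s| ≤
      ((Y.factorial ^ ex B Z * i.factorial : ℕ) : ℤ) *
        ((2 ^ (i + a) * ∏ n ∈ Icc 1 B, (8 ^ (n * (Z * Y)) * 4 ^ n * (n * Z) ^ (n * (Z * Y))) : ℕ) : ℤ) := by
  have h1 : Bd (TI B (Z * Y) I a) (∏ n ∈ Icc 1 B, (8 ^ (n * (Z * Y)) * 4 ^ n * (n * (Z * Y)).factorial)) := by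
    unfold TI
    exact Bd.prod _ _ _ fun n _ => layer_bd n a (Z * Y) ha (n ∈ I)
  have h2 := ((bi_bd a i).mul h1).coeff s
  refine h2.trans ?_
  have h3 : ∏ n ∈ Icc 1 B, (8 ^ (n * (Z * Y)) * 4 ^ n * (n * (Z * Y)).factorial) ≤
      Y.factorial ^ ex B Z * ∏ n ∈ Icc 1 B, (8 ^ (n * (Z * Y)) * 4 ^ n * (n * Z) ^ (n * (Z * Y))) := by
    have e : Y.factorial ^ ex B Z = ∏ n ∈ Icc 1 B, Y.factorial ^ (n * Z) := by
      rw [prod_pow_eq_pow_sum, ← sum_mul, mul_comm]
      rfl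
    rw [e, ← prod_mul_distrib]
    refine prod_le_prod' fun n _ => ?_
    have e2 := factorial_mul_le (n * Z) Y
    rw [mul_assoc n Z Y] at e2
    calc _ ≤ 8 ^ (n * (Z * Y)) * 4 ^ n * ((n * Z) ^ (n * (Z * Y)) * Y.factorial ^ (n * Z)) := by gcongr
      _ = _ := by ring
  have h4 : i.factorial * 2 ^ (i + a) * ∏ n ∈ Icc 1 B, (8 ^ (n * (Z * Y)) * 4 ^ n * (n * (Z * Y)).factorial)
      ≤ (Y.factorial ^ ex B Z * i.factorial) *
        (2 ^ (i + a) * ∏ n ∈ Icc 1 B, (8 ^ (n * (Z * Y)) * 4 ^ n * (n * Z) ^ (n * (Z * Y)))) := by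
    calc _ ≤ i.factorial * 2 ^ (i + a) *
          (Y.factorial ^ ex B Z * ∏ n ∈ Icc 1 B, (8 ^ (n * (Z * Y)) * 4 ^ n * (n * Z) ^ (n * (Z * Y)))) := by
          gcongr
      _ = _ := by ring
  exact_mod_cast h4

/-- **Size of the integral entries.** -/
theorem entry_size {Y Z B a i : ℕ} (I : Finset ℕ) (ha : a ≤ Z * Y) (s : ℕ) {e : ℤ}
    (he : ((Y.factorial ^ ex B Z * i.factorial : ℕ) : ℤ) * e =
      ((Nat.lcmUpto Y : ℕ) : ℤ) ^ (s + B) * (bi a i * TI B (Z * Y) I a).coeff s) :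
    |e| ≤ ((Nat.lcmUpto Y ^ (s + B) *
      (2 ^ (i + a) * ∏ n ∈ Icc 1 B, (8 ^ (n * (Z * Y)) * 4 ^ n * (n * Z) ^ (n * (Z * Y)))) : ℕ) : ℤ) := by
  have hpos : (0 : ℤ) < ((Y.factorial ^ ex B Z * i.factorial : ℕ) : ℤ) := by
    have : 0 < Y.factorial ^ ex B Z * i.factorial :=
      Nat.mul_pos (pow_pos (Nat.factorial_pos _) _) (Nat.factorial_pos _)
    exact_mod_cast this
  refine le_of_mul_le_mul_left ?_ hpos
  have h1 : ((Y.factorial ^ ex B Z * i.factorial : ℕ) : ℤ) * |e| =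
      ((Nat.lcmUpto Y : ℕ) : ℤ) ^ (s + B) * |(bi a i * TI B (Z * Y) I a).coeff s| := by
    rw [← abs_of_pos hpos, ← abs_mul, he, abs_mul, abs_of_nonneg (by positivity)]
  rw [h1]
  calc _ ≤ ((Nat.lcmUpto Y : ℕ) : ℤ) ^ (s + B) * (((Y.factorial ^ ex B Z * i.factorial : ℕ) : ℤ) *
        ((2 ^ (i + a) * ∏ n ∈ Icc 1 B, (8 ^ (n * (Z * Y)) * 4 ^ n * (n * Z) ^ (n * (Z * Y))) : ℕ) : ℤ)) :=
        mul_le_mul_of_nonneg_left (size_main I ha s) (by positivity)
    _ = _ := by push_cast; ring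

end Pool.Agent.H43.TD
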