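import Mathlib

/-!
# Gap theorem, route 2: integrality of products of arithmetic progressions

If every `j ≤ Y` divides `L`, then `i!` divides `∏_{b<i} (y - b)` and `∏_{b<i} (4 y - 4 b - 2)` for
`y = L x + c`, `i ≤ Y`, `c` an integer; products of arbitrary length are cut into blocks of length `Y`.
-/

set_option autoImplicit false

namespace Pool.Agent.H43.TD

open Finset

section

variable {R : Type*} [CommRing R]

/-- `y (y - 1) ⋯ (y - i + 1)` -/
def ff (y : R) (i : ℕ) : R := ∏ b ∈ range i, (y - (b : R))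

/-- `∏_{b<i} (4 y - 4 b - 2)` -/
def hf (y : R) (i : ℕ) : R := ∏ b ∈ range i, (4 * y - 4 * (b : R) - 2)

@[simp] theorem ff_zero (y : R) : ff y 0 = 1 := by simp [ff]

@[simp] theorem hf_zero (y : R) : hf y 0 = 1 := by simp [hf]

theorem ff_succ (y : R) (i : ℕ) : ff y (i + 1) = ff y i * (y - i) := by
  simp only [ff]; rw [prod_range_succ]

theorem hf_succ (y : R) (i : ℕ) : hf y (i + 1) = hf y i * (4 * y - 4 * (i : R) - 2) := by
  simp only [hf]; rw [prod_range_succ]

theorem ff_shift (y : R) (i : ℕ) : ff (y + 1) (i + 1) = (y + 1) * ff y i := by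
  simp only [ff]
  rw [prod_range_succ', mul_comm]
  congr 1
  · simp
  · refine prod_congr rfl fun b _ => ?_
    push_cast; ring

theorem ff_pascal (y : R) (i : ℕ) :
    ff (y + 1) (i + 1) = ff y (i + 1) + ((i : R) + 1) * ff y i := by
  rw [ff_shift, ff_succ]; ring

theorem ff_add (y : R) (i j : ℕ) : ff y (i + j) = ff y i * ff (y - i) j := by
  simp only [ff]
  rw [prod_range_add]
  congr 1
  refine prod_congr rfl fun b _ => ?_
  push_cast; ring

theorem hf_add (y : R) (i j : ℕ) : hf y (i + j) = hf y i * hf (y - i) j := by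
  simp only [hf]
  rw [prod_range_add]
  congr 1
  refine prod_congr rfl fun b _ => ?_
  push_cast; ring

/-- all factorials up to `Y` divide the falling factorials of `y` -/
def Dv (Y : ℕ) (y : R) : Prop := ∀ i ≤ Y, ((i.factorial : ℕ) : R) ∣ ff y i

theorem dvd_mul_pascal (i : ℕ) {a : R} (h : ((i.factorial : ℕ) : R) ∣ a) :
    (((i + 1).factorial : ℕ) : R) ∣ ((i : R) + 1) * a := by
  rw [Nat.factorial_succ, Nat.cast_mul, Nat.cast_succ]
  exact mul_dvd_mul_left _ h

theorem Dv.add_one {Y : ℕ} {y : R} (h : Dv Y y) : Dv Y (y + 1) := by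
  intro i hi
  cases i with
  | zero => simp
  | succ i =>
    rw [ff_pascal]
    exact dvd_add (h _ hi) (dvd_mul_pascal i (h i (by omega)))

theorem Dv.sub_one {Y : ℕ} {y : R} (h : Dv Y y) : Dv Y (y - 1) := by
  intro i
  induction i with
  | zero => intro _; simp
  | succ i ih =>
    intro hi
    have e := ff_pascal (y - 1) i
    rw [sub_add_cancel] at e
    have e' : ff (y - 1) (i + 1) = ff y (i + 1) - ((i : R) + 1) * ff (y - 1) i := by
      rw [e]; ring
    rw [e']
    exact dvd_sub (h _ hi) (dvd_mul_pascal i (ih (by omega)))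

theorem Dv.add_int {Y : ℕ} {y : R} (h : Dv Y y) (c : ℤ) : Dv Y (y + c) := by
  induction c using Int.induction_on with
  | zero => simpa using h
  | succ c ih =>
    have := ih.add_one
    rw [show y + ((c + 1 : ℤ) : R) = y + ((c : ℤ) : R) + 1 by push_cast; ring]
    exact this
  | pred c ih =>
    have := ih.sub_one
    rw [show y + ((-(c : ℤ) - 1 : ℤ) : R) = y + ((-(c : ℤ) : ℤ) : R) - 1 by push_cast; ring]
    exact this

/-- the basic case -/
theorem Dv_mul {Y L : ℕ} (hL : ∀ j, 1 ≤ j → j ≤ Y → j ∣ L) (x : R) : Dv Y ((L : R) * x) := by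
  intro i hi
  cases i with
  | zero => simp
  | succ i =>
    have h1 : ff ((L : R) * x) (i + 1) = ((L : R) * x) * ∏ b ∈ range i, ((L : R) * x - ((b : R) + 1)) := by
      simp only [ff]
      rw [prod_range_succ', mul_comm]
      congr 1
      · simp
      · refine prod_congr rfl fun b _ => ?_
        push_cast; ring
    rw [h1, Nat.factorial_succ, Nat.cast_mul]
    refine mul_dvd_mul ?_ ?_
    · obtain ⟨q, hq⟩ := hL (i + 1) (by omega) hi
      exact ⟨(q : R) * x, by rw [hq]; push_cast; ring⟩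
    · rw [← prod_range_add_one_eq_factorial, Nat.cast_prod]
      refine prod_dvd_prod_of_dvd _ _ fun b hb => ?_
      have hb' := mem_range.1 hb
      obtain ⟨q, hq⟩ := hL (b + 1) (by omega) (by omega)
      exact ⟨(q : R) * x - 1, by rw [hq]; push_cast; ring⟩

/-- `(-1)^m (2m)!/m!` -/
def ww (m : ℕ) : ℤ := (-1) ^ m * (m.factorial * m.centralBinom : ℕ)

theorem ww_succ (m : ℕ) : ww (m + 1) = -(4 * (m : ℤ) + 2) * ww m := by
  have h := Nat.succ_mul_centralBinom_succ m
  simp only [ww]
  rw [Nat.factorial_succ, pow_succ]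
  have h' : (((m + 1) * m.factorial * (m + 1).centralBinom : ℕ) : ℤ)
      = (m.factorial : ℤ) * (2 * (2 * (m : ℤ) + 1) * (m.centralBinom : ℤ)) := by
    rw [show (m + 1) * m.factorial * (m + 1).centralBinom
      = m.factorial * ((m + 1) * (m + 1).centralBinom) by ring, h]
    push_cast; ring
  rw [h']
  push_cast; ring

/-- the theorem of Vandermonde, for `y - 1/2` -/
theorem hf_eq (y : R) (i : ℕ) :
    hf y i = ∑ p ∈ antidiagonal i, ((i.choose p.1 : ℕ) : R) * ((4 ^ p.1 * ff y p.1) * ((ww p.2 : ℤ) : R)) := by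
  induction i with
  | zero => simp [ww]
  | succ i ih =>
    rw [hf_succ, ih, Finset.sum_antidiagonal_choose_succ_mul
      (fun a m => (4 ^ a * ff y a) * ((ww m : ℤ) : R)) i, sum_mul, ← sum_add_distrib]
    refine sum_congr rfl fun p hp => ?_
    have hp' := mem_antidiagonal.1 hp
    have hc : i.choose p.2 = i.choose p.1 := by
      rw [← hp']; exact (Nat.choose_symm_add).symm
    rw [hc, ff_succ, ww_succ]
    have hi : (i : R) = (p.1 : R) + (p.2 : R) := by rw [← hp']; push_cast; ring
    rw [hi, pow_succ]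
    push_cast
    ring

theorem Dv.hf {Y : ℕ} {y : R} (h : Dv Y y) {i : ℕ} (hi : i ≤ Y) :
    ((i.factorial : ℕ) : R) ∣ hf y i := by
  rw [hf_eq]
  refine dvd_sum fun p hp => ?_
  have hp' := mem_antidiagonal.1 hp
  obtain ⟨q, hq⟩ := h p.1 (by omega)
  have hc : i.factorial = i.choose p.1 * p.1.factorial * p.2.factorial := by
    rw [← hp', Nat.choose_symm_add]
    exact (Nat.add_choose_mul_factorial_mul_factorial p.1 p.2).symm
  refine ⟨4 ^ p.1 * q * ((-1) ^ p.2 * (p.2.centralBinom : R)), ?_⟩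
  rw [hq, hc]
  simp only [ww]
  push_cast
  ring

/-- the block factorial -/
def bl (Y m : ℕ) : ℕ := Y.factorial ^ (m / Y) * (m % Y).factorial

theorem bl_add {Y : ℕ} (hY : 0 < Y) (m : ℕ) : bl Y (Y + m) = Y.factorial * bl Y m := by
  unfold bl
  rw [Nat.add_div_left m hY, Nat.add_mod_left, pow_succ]
  ring

theorem bl_of_lt {Y m : ℕ} (h : m < Y) : bl Y m = m.factorial := by
  unfold bl
  rw [Nat.div_eq_of_lt h, Nat.mod_eq_of_lt h]; simp

theorem ff_block {Y : ℕ} (hY : 0 < Y) (m : ℕ) : ∀ {y : R}, Dv Y y → ((bl Y m : ℕ) : R) ∣ ff y m := by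
  induction m using Nat.strong_induction_on with
  | _ m ih =>
    intro y h
    rcases lt_or_ge m Y with hm | hm
    · rw [bl_of_lt hm]; exact h m hm.le
    · obtain ⟨m', rfl⟩ := Nat.exists_eq_add_of_le hm
      rw [bl_add hY, ff_add, Nat.cast_mul]
      refine mul_dvd_mul (h Y le_rfl) (ih m' (by omega) ?_)
      have := h.add_int (-(Y : ℤ))
      rw [show y - (Y : R) = y + ((-(Y : ℤ) : ℤ) : R) by push_cast; ring]
      exact this

theorem hf_block {Y : ℕ} (hY : 0 < Y) (m : ℕ) : ∀ {y : R}, Dv Y y → ((bl Y m : ℕ) : R) ∣ hf y m := by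
  induction m using Nat.strong_induction_on with
  | _ m ih =>
    intro y h
    rcases lt_or_ge m Y with hm | hm
    · rw [bl_of_lt hm]; exact h.hf hm.le
    · obtain ⟨m', rfl⟩ := Nat.exists_eq_add_of_le hm
      rw [bl_add hY, hf_add, Nat.cast_mul]
      refine mul_dvd_mul (h.hf le_rfl) (ih m' (by omega) ?_)
      have := h.add_int (-(Y : ℤ))
      rw [show y - (Y : R) = y + ((-(Y : ℤ) : ℤ) : R) by push_cast; ring]
      exact this

/-- `∏_{b=1..m} (y + b)` as a falling factorial -/
theorem prod_add_eq (y : R) (m : ℕ) : ∏ b ∈ range m, (y + ((b : R) + 1)) = ff (y + m) m := by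
  simp only [ff]
  rw [← prod_range_reflect]
  refine prod_congr rfl fun b hb => ?_
  have hb' := mem_range.1 hb
  have : ((m - 1 - b : ℕ) : R) = (m : R) - 1 - b := by
    rw [Nat.cast_sub (by omega), Nat.cast_sub (by omega)]; simp
  rw [this]; ring

/-- `∏_{b=1..m} (4 y + 4 b - 2)` -/
theorem prod_half_eq (y : R) (m : ℕ) :
    ∏ b ∈ range m, (4 * y + 4 * ((b : R) + 1) - 2) = hf (y + m) m := by
  simp only [hf]
  rw [← prod_range_reflect]
  refine prod_congr rfl fun b hb => ?_
  have hb' := mem_range.1 hb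
  have : ((m - 1 - b : ℕ) : R) = (m : R) - 1 - b := by
    rw [Nat.cast_sub (by omega), Nat.cast_sub (by omega)]; simp
  rw [this]; ring

/-- `∏_{b=1..m} (y - b)` -/
theorem prod_sub_eq (y : R) (m : ℕ) : ∏ b ∈ range m, (y - ((b : R) + 1)) = ff (y - 1) m := by
  simp only [ff]
  refine prod_congr rfl fun b _ => ?_
  ring

end

/-- two complementary broken blocks -/
theorem bl_mul {Y : ℕ} (hY : 0 < Y) (q a b : ℕ) (h : a + b = q * Y) :
    ∃ c, c ∣ Nat.lcmUpto Y ∧ c * (bl Y a * bl Y b) = Y.factorial ^ q := by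
  have ha := Nat.div_add_mod a Y
  have hb := Nat.div_add_mod b Y
  have ha' := Nat.mod_lt a hY
  have hb' := Nat.mod_lt b hY
  set a1 := a / Y
  set a0 := a % Y
  set b1 := b / Y
  set b0 := b % Y
  have hs : (a0 + b0) + Y * (a1 + b1) = Y * q := by nlinarith
  have hd : Y ∣ a0 + b0 := (Nat.dvd_add_left (Dvd.intro _ rfl)).1 (hs ▸ Dvd.intro _ rfl)
  obtain ⟨t, ht⟩ := hd
  have ht2 : t < 2 := by
    by_contra hcon
    have : Y * 2 ≤ Y * t := Nat.mul_le_mul_left _ (by omega)
    omega
  have hq : q = t + (a1 + b1) := by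
    have : Y * (t + (a1 + b1)) = Y * q := by rw [mul_add, ← ht]; exact hs
    exact (Nat.eq_of_mul_eq_mul_left hY this).symm
  interval_cases t
  · have h0 : a0 = 0 := by omega
    have h1 : b0 = 0 := by omega
    refine ⟨1, one_dvd _, ?_⟩
    change 1 * ((Y.factorial ^ a1 * a0.factorial) * (Y.factorial ^ b1 * b0.factorial)) = _
    rw [h0, h1, hq]
    simp [pow_add]
  · have hab : a0 + b0 = Y := by omega
    refine ⟨Y.choose a0, ?_, ?_⟩
    · rw [← Nat.factorization_le_iff_dvd (Nat.choose_pos (by omega)).ne' (Nat.lcmUpto_ne_zero Y)]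
      intro p
      by_cases hp : p.Prime
      · rw [Nat.factorization_lcmUpto Y hp]
        exact Nat.factorization_choose_le_log
      · rw [Nat.factorization_eq_zero_of_not_prime _ hp]; exact Nat.zero_le _
    · change Y.choose a0 * ((Y.factorial ^ a1 * a0.factorial) * (Y.factorial ^ b1 * b0.factorial)) = _
      have e : Y.factorial = Y.choose a0 * a0.factorial * b0.factorial := by
        rw [← hab, Nat.choose_symm_add]
        exact (Nat.add_choose_mul_factorial_mul_factorial a0 b0).symm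
      rw [hq, pow_add, pow_add, pow_one]
      calc _ = (Y.choose a0 * a0.factorial * b0.factorial) * (Y.factorial ^ a1 * Y.factorial ^ b1) := by ring
        _ = _ := by rw [← e]

end Pool.Agent.H43.TD
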